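import Pool.Agent.L7h32.AA.Fin

/-!
# Smooth Schoenflies: almost affine 3-spheres are unknotted

A map `f : S³ → ℝ⁴` is *almost affine* at the scale `r` if on every ball of radius `r` of `S³` it is
within `λ r / 200` of an affine map of `ℝ⁴` which expands all distances at least by the factor `λ > 0`
(`λ` and the affine map depend on the ball and on the scale; there is no bound for the distortion of the
affine maps, in `distortion at most H` they expand distances at most by the factor `H λ`).

1. A smooth embedding `S³ → ℝ⁴` which is almost affine at all scales `r ≤ 2` extends to a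
   diffeomorphism of `ℝ⁴` which is a linear isometry near infinity. So its image is smoothly unknotted
   in `S⁴ = ℝ⁴ ∪ {∞}`.
2. A path of topological embeddings (no differentiability, neither in the time nor in space)
   which are almost affine at all sufficiently small scales and whose end points are smooth embeddings
   can be replaced by an ambient diffeomorphism with compact support.
3. In every compact set of topological embeddings (in the `C⁰` topology) there are, up to
   diffeomorphisms of `ℝ⁴` with compact support, only finitely many smooth embeddings which are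
   almost affine of distortion at most `H` at all scales `r ≤ r₀` (for every `H` and every `r₀ > 0`).

The area, the curvature and the entropy of the spheres are not bounded, the affine maps may rotate and
degenerate over arbitrarily many scales.

Method: the mollifications of `f` at the scales `t ∈ (0, τ]` (with a kernel of small total variation)
are smooth embeddings, because at the scale `t` the error of the affine approximation is small relative
to its least expansion; this is a path of smooth embeddings from `f` to a map which is `C¹`-close to an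
affine one. An isotopy extension theorem (by small steps) gives the diffeomorphism.
-/

set_option autoImplicit false

open Set Filter Topology Metric Function
open scoped Manifold ContDiff

noncomputable section

namespace Pool.Agent.Results.MP_6c077c_gt.AlmostAffineSpheres

/-- `ℝ³` -/
abbrev R3 : Type := EuclideanSpace ℝ (Fin 3)

/-- `ℝ⁴` -/
abbrev R4 : Type := EuclideanSpace ℝ (Fin 4)

/-- the unit sphere of `ℝ⁴`, with the distance of `ℝ⁴` and its standard smooth structure -/
abbrev S3 : Type := sphere (0 : EuclideanSpace ℝ (Fin (3 + 1))) 1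

/-- `f` is a map of class `C^∞` -/
def Smooth (f : S3 → R4) : Prop := ContMDiff (𝓡 3) (𝓡 4) ∞ f

/-- the derivative of `f` at `x`, as a linear map from `ℝ³` to `ℝ⁴` (in the preferred charts) -/
def der (f : S3 → R4) (x : S3) : R3 →L[ℝ] R4 := mfderiv (𝓡 3) (𝓡 4) f x

/-- smooth embeddings `S³ → ℝ⁴` -/
def SmoothEmbedding (f : S3 → R4) : Prop := Smooth f ∧ Injective f ∧ ∀ x, Injective (der f x)

/-- the distance in `ℝ⁴` -/
def d (v w : R4) : ℝ := ‖v - w‖

/-- `T` is an affine map -/
def Affine (T : R4 → R4) : Prop := ∃ L : R4 →ᵃ[ℝ] R4, ∀ v, T v = L v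

/-- `f` is almost affine at the scale `r`: on the ball of radius `r` about `x` it is within
`l * r / 200` of an affine map `T` which expands all distances at least by the factor `l > 0` -/
def AlmostAffine (r : ℝ) (f : S3 → R4) : Prop :=
  ∀ x : S3, ∃ (l : ℝ) (T : R4 → R4), 0 < l ∧ Affine T ∧ (∀ v w, l * d v w ≤ d (T v) (T w)) ∧
    ∀ y : S3, d y.1 x.1 ≤ r → d (f y) (T y.1) ≤ l * r / 200

/-- the same, with affine maps of distortion at most `H` -/
def AlmostAffineOfDistortion (H r : ℝ) (f : S3 → R4) : Prop :=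
  ∀ x : S3, ∃ (l : ℝ) (T : R4 → R4), 0 < l ∧ Affine T ∧ (∀ v w, l * d v w ≤ d (T v) (T w)) ∧
    (∀ v w, d (T v) (T w) ≤ H * l * d v w) ∧
    ∀ y : S3, d y.1 x.1 ≤ r → d (f y) (T y.1) ≤ l * r / 200

/-- `G` is a diffeomorphism of `ℝ⁴` -/
def Diffeo (G : R4 → R4) : Prop :=
  ContDiff ℝ ∞ G ∧ ∃ G' : R4 → R4, ContDiff ℝ ∞ G' ∧ (∀ x, G' (G x) = x) ∧ ∀ x, G (G' x) = x

/-- `G` and `O` agree outside a compact set -/
def EqNearInfinity (G O : R4 → R4) : Prop := ∃ C : Set R4, IsCompact C ∧ ∀ x, x ∉ C → G x = O x

/-- `f` extends to a diffeomorphism of `ℝ⁴` which is a linear isometry outside a compact set -/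
def Unknotted (f : S3 → R4) : Prop :=
  ∃ (G : R4 → R4) (O : R4 ≃ₗᵢ[ℝ] R4), Diffeo G ∧ EqNearInfinity G O ∧ ∀ x : S3, G x.1 = f x

/-- `f = G ∘ g` with a diffeomorphism `G` of `ℝ⁴` which is the identity outside a compact set -/
def SameType (g f : S3 → R4) : Prop :=
  ∃ G : R4 → R4, Diffeo G ∧ EqNearInfinity G id ∧ ∀ x : S3, G (g x) = f x

/-- `f` is a path of topological embeddings which are almost affine at all small scales -/
structure AlmostAffinePath (f : unitInterval × S3 → R4) : Prop where
  continuous : Continuous f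
  injective : ∀ t, Injective fun x => f (t, x)
  almostAffine : ∃ r₀ : ℝ, 0 < r₀ ∧ ∀ r : ℝ, 0 < r → r ≤ r₀ → ∀ t,
    AlmostAffine r fun x => f (t, x)

/-- the space of the continuous maps `S³ → ℝ⁴` with the `C⁰` topology -/
abbrev Maps : Type := C(S3, R4)

/-- a compact set of topological embeddings -/
def CompactFamily (S : Set Maps) : Prop := IsCompact S ∧ ∀ f ∈ S, Injective f

/-- `f` is one of the maps of `S` -/
def InFamily (S : Set Maps) (f : S3 → R4) : Prop := ∃ g ∈ S, ∀ x, g x = f x

/-- finitely many smooth embeddings represent, up to diffeomorphisms with compact support, all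
smooth embeddings in `S` which are almost affine of distortion at most `H` at the scales `r ≤ r₀` -/
def FinitelyManyTypes (S : Set Maps) (H r₀ : ℝ) : Prop :=
  ∃ B : Set (S3 → R4), B.Finite ∧ (∀ g ∈ B, SmoothEmbedding g) ∧
    ∀ f, InFamily S f → SmoothEmbedding f →
      (∀ r : ℝ, 0 < r → r ≤ r₀ → AlmostAffineOfDistortion H r f) → ∃ g ∈ B, SameType g f

/-- The three statements of the introduction. -/
theorem result :
    (∀ f, SmoothEmbedding f → (∀ r : ℝ, 0 < r → r ≤ 2 → AlmostAffine r f) → Unknotted f) ∧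
    (∀ f, AlmostAffinePath f → SmoothEmbedding (fun x => f (0, x)) →
      SmoothEmbedding (fun x => f (1, x)) → SameType (fun x => f (0, x)) fun x => f (1, x)) ∧
    ∀ (S : Set Maps) (H r₀ : ℝ), CompactFamily S → 0 ≤ H → 0 < r₀ →
      FinitelyManyTypes S H r₀ := by
  obtain ⟨η, V, hd⟩ := Pool.Agent.L7h32.AA.data
  have conv : ∀ f : S3 → R4, SmoothEmbedding f → Pool.Agent.L7h32.AA.SmEmb f := fun f h =>
    ⟨h.1, h.2.1, h.2.2⟩
  have hd1 : ∀ v w : R4, d v w = dist v w := fun v w => (dist_eq_norm v w).symm
  have hdS : ∀ x y : S3, d x.1 y.1 = dist x y := fun x y => by rw [hd1, Subtype.dist_eq]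
  have cA : ∀ (r : ℝ) (f : S3 → R4), AlmostAffine r f → Pool.Agent.L7h32.AA.AlmA r f := by
    intro r f h x
    obtain ⟨l, T, hl, ⟨L, hL⟩, h1, h2⟩ := h x
    refine ⟨l, L, hl, fun v w => ?_, fun y hy => ?_⟩
    · have := h1 v w
      rwa [hd1, hd1, hL, hL] at this
    · have := h2 y (by rwa [hdS])
      rwa [hd1, hL] at this
  have cH : ∀ (H r : ℝ) (f : S3 → R4), AlmostAffineOfDistortion H r f →
      Pool.Agent.L7h32.AA.AlmAH H r f := by
    intro H r f h x
    obtain ⟨l, T, hl, ⟨L, hL⟩, h1, h3, h2⟩ := h x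
    refine ⟨l, L, hl, fun v w => ?_, fun v w => ?_, fun y hy => ?_⟩
    · have := h1 v w
      rwa [hd1, hd1, hL, hL] at this
    · have := h3 v w
      rwa [hd1, hd1, hL, hL] at this
    · have := h2 y (by rwa [hdS])
      rwa [hd1, hL] at this
  have hD : ∀ G : Diffeomorph (𝓡 4) (𝓡 4) R4 R4 ∞, Diffeo G := fun G =>
    ⟨G.contMDiff_toFun.contDiff, G.symm, G.symm.contMDiff_toFun.contDiff,
      fun x => G.symm_apply_apply x, fun x => G.apply_symm_apply x⟩
  refine ⟨fun f hf hA => ?_, fun f hf h0 h1 => ?_, fun S H r₀ hS hH hr => ?_⟩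
  · obtain ⟨G, O, C, hC, h1, h2⟩ := Pool.Agent.L7h32.AA.part_a hd f (conv f hf)
      fun r hr hr2 => cA r f (hA r hr hr2)
    exact ⟨G, O, hD G, ⟨C, hC, h1⟩, h2⟩
  · obtain ⟨r₀, hr₀, hA⟩ := hf.almostAffine
    obtain ⟨G, C, hC, h2, h3⟩ := Pool.Agent.L7h32.AA.part_b hd f hf.continuous hf.injective hr₀
      (fun r hr hr2 t => cA r _ (hA r hr hr2 t)) (conv _ h0) (conv _ h1)
    exact ⟨G, hD G, ⟨C, hC, h2⟩, h3⟩
  · obtain ⟨B, hB, h2, h3⟩ := Pool.Agent.L7h32.AA.part_c hd S hS.1 hS.2 hr hH
    refine ⟨B, hB, fun g hg => ⟨(h2 g hg).smooth, (h2 g hg).injective, (h2 g hg).immersion⟩, ?_⟩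
    rintro f ⟨f', hf, hff⟩ hfe hfA
    obtain rfl : (f' : S3 → R4) = f := funext hff
    obtain ⟨g, hg, G, C, hC, h4, h5⟩ := h3 f' hf (conv _ hfe) fun r hr hr2 => cH H r _ (hfA r hr hr2)
    exact ⟨g, hg, G, hD G, ⟨C, hC, h4⟩, h5⟩

end Pool.Agent.Results.MP_6c077c_gt.AlmostAffineSpheres
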