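import Pool.Agent.R865.SchT
import Pool.Agent.L7h13.NAf.Lift
import Pool.Agent.L7h13.NAf.Sim

/-!
# Smooth Schoenflies: spheres bounding balls with nearly affine parametrizations

A homeomorphism `g` between open subsets of `ℝ⁴` with a compact set of bad points (points at which it
is not a local diffeomorphism) is *nearly affine* if there are arbitrarily small scales `r` such that
on the ball of radius `r` about every point near the bad points `g` is, up to an invertible linear map,
an error of `r / 5` away from a translation. It is a *near similarity* if at arbitrarily small scales `r`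
it multiplies the distances of the points of the balls of radius `r` about the points near the bad points
by a factor (which depends on the centre and on `r`), up to an error of `r / 41`; no factor, scale or
linear map is prescribed, and the linear maps may spiral or degenerate when `r` tends to zero.

* Near similarities are nearly affine (polarization).
* Nearly affine homeomorphisms are limits, relative to infinity, of diffeomorphisms (mollification at one
  good scale with a kernel of small total variation, an estimate of the derivative with explicit constants,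
  gluing, and a degree argument for the bijectivity).
* Let the mild homeomorphisms be the least class of homeomorphisms between smooth 4-manifolds which
  contains the nearly affine ones and which is closed under inverses, compositions, limits relative to
  infinity and extensions. Then a subset `S` of `ℝ⁴` is the image of the unit sphere under a
  diffeomorphism of `ℝ⁴` which is a linear isometry near infinity (so `S` is a smoothly unknotted
  3-sphere) if and only if it bounds a ball which has a mild parametrization.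

This class is independent of the one of `UnknottedIffTame` (smooth of rank at least three, or cone
monotone): nearly affine homeomorphisms need not be differentiable, and their derivatives, where they
exist, may rotate without limit. The question whether nearly affine homeomorphisms can be added was
raised by helper38; the framework (the class generated under the closure operations) is from
`MP_6db3ee_gt.TameHomeomorphisms` and `UnknottedIffTame`.
-/

set_option autoImplicit false

open Set Filter Topology Metric Function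
open scoped Manifold ContDiff

noncomputable section

namespace Pool.Agent.Results.MP_6c077c_gt.NearlyAffine

/-- `ℝ⁴` -/
abbrev R4 : Type := EuclideanSpace ℝ (Fin 4)

/-- smooth 4-manifolds (Hausdorff, without boundary, possibly noncompact) -/
structure Mfd4 where
  /-- the set of points -/
  pts : Type
  [top : TopologicalSpace pts]
  [chart : ChartedSpace R4 pts]
  smooth : IsManifold (𝓡 4) ∞ pts
  hausdorff : T2Space pts

instance : CoeSort Mfd4 Type := ⟨Mfd4.pts⟩

instance (M : Mfd4) : TopologicalSpace M := M.top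

instance (M : Mfd4) : ChartedSpace R4 M := M.chart

/-- an open subset of a smooth 4-manifold as a smooth 4-manifold -/
def Mfd4.sub (M : Mfd4) (V : TopologicalSpace.Opens M) : Mfd4 where
  pts := V
  smooth := by
    have := M.smooth
    infer_instance
  hausdorff := by
    have := M.hausdorff
    infer_instance

/-- the inclusion of an open subset -/
def Mfd4.incl (M : Mfd4) (V : TopologicalSpace.Opens M) : M.sub V → M := fun y => (show V from y).1

/-- `ℝ⁴` with its standard smooth structure -/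
def std : Mfd4 where
  pts := R4
  smooth := inferInstance
  hausdorff := inferInstance

/-- the open unit ball of `ℝ⁴` -/
def unitBall : TopologicalSpace.Opens std :=
  (⟨ball (0 : R4) 1, isOpen_ball⟩ : TopologicalSpace.Opens R4)

section defs

variable {M N : Type} [TopologicalSpace M] [TopologicalSpace N] [ChartedSpace R4 M]
  [ChartedSpace R4 N]

/-- `f` is a local diffeomorphism (of class `C^∞`, with smooth inverse) at `x` -/
def LocDiff (f : M → N) (x : M) : Prop := IsLocalDiffeomorphAt (𝓡 4) (𝓡 4) ∞ f x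

/-- the set of the points at which `f` is not a local diffeomorphism -/
def bad (f : M → N) : Set M := {x | ¬ LocDiff f x}

/-- the graph of `f` is contained in `O` -/
def GraphIn (f : M → N) (O : Set (M × N)) : Prop := ∀ x, (x, f x) ∈ O

end defs

/-- the point of `ℝ⁴` underlying a point of an open subset of `ℝ⁴` -/
def pt (U : TopologicalSpace.Opens std) (x : std.sub U) : R4 := std.incl U x

/-- `g` is nearly affine near its bad points at arbitrarily small scales: there are `ρ > 0` and
arbitrarily small `r > 0` such that for every point `x` at distance less than `ρ` from a bad point there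
is an invertible linear map `L` with `‖L (g y - g x) - (y - x)‖ ≤ r / 5` for all `y` in the ball of
radius `r` about `x` -/
def IsNearlyAffine (U V : TopologicalSpace.Opens std) (g : std.sub U ≃ₜ std.sub V) : Prop :=
  ∃ ρ : ℝ, 0 < ρ ∧ ∀ r0 : ℝ, 0 < r0 → ∃ r : ℝ, 0 < r ∧ r < r0 ∧
    ∀ b ∈ bad g, ∀ x, dist (pt U x) (pt U b) < ρ →
      ∃ L : R4 ≃L[ℝ] R4, ∀ y, dist (pt U y) (pt U x) ≤ r →
        ‖L (pt V (g y) - pt V (g x)) - (pt U y - pt U x)‖ ≤ r / 5

/-- `g` is a near similarity near its bad points at arbitrarily small scales: there are `ρ > 0` and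
arbitrarily small `r > 0` such that for every point `x` at distance less than `ρ` from a bad point there
is `c > 0` such that the distance of `y` and `z` differs by at most `r / 41` from `c` times the distance
of `g y` and `g z`, for all `y`, `z` in the ball of radius `r` about `x` -/
def NearSimilarity (U V : TopologicalSpace.Opens std) (g : std.sub U ≃ₜ std.sub V) : Prop :=
  ∃ ρ : ℝ, 0 < ρ ∧ ∀ r0 : ℝ, 0 < r0 → ∃ r : ℝ, 0 < r ∧ r < r0 ∧
    ∀ b ∈ bad g, ∀ x, dist (pt U x) (pt U b) < ρ →
      ∃ c : ℝ, 0 < c ∧ ∀ y z, dist (pt U y) (pt U x) ≤ r → dist (pt U z) (pt U x) ≤ r →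
        |c * dist (pt V (g y)) (pt V (g z)) - dist (pt U y) (pt U z)| ≤ r / 41

/-- The least class of homeomorphisms of smooth 4-manifolds which contains the homeomorphisms between
open subsets of `ℝ⁴` with a compact set of bad points near which they are nearly affine, and which is
closed under inverses, compositions, limits relative to infinity and extensions from open neighbourhoods
of the (compact) set of bad points. -/
inductive Mild : (M N : Mfd4) → (M ≃ₜ N) → Prop
  | nearlyAffine {U V : TopologicalSpace.Opens std} (g : std.sub U ≃ₜ std.sub V) :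
      IsCompact (bad g) → IsNearlyAffine U V g → Mild (std.sub U) (std.sub V) g
  | inverse {M N : Mfd4} (g : M ≃ₜ N) : Mild M N g → Mild N M g.symm
  | composition {M N P : Mfd4} (g : M ≃ₜ N) (h : N ≃ₜ P) :
      Mild M N g → Mild N P h → Mild M P (g.trans h)
  | limit {M N : Mfd4} (g : M ≃ₜ N) (h : Set (M × N) → (M ≃ₜ N)) (C : Set (M × N) → Set M) :
      (∀ O, IsOpen O → GraphIn g O → IsCompact (C O) ∧ GraphIn (h O) O ∧
        ∀ x, x ∉ C O → h O x = g x) →
      (∀ O, IsOpen O → GraphIn g O → Mild M N (h O)) → Mild M N g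
  | extension {M N : Mfd4} (g : M ≃ₜ N) (V : TopologicalSpace.Opens M)
      (W : TopologicalSpace.Opens N) (k : M.sub V ≃ₜ N.sub W) :
      (∀ x, N.incl W (k x) = g (M.incl V x)) → bad g ⊆ V →
      Mild (M.sub V) (N.sub W) k → Mild M N g

/-- every neighbourhood of the graph of `g` contains the graph of a diffeomorphism which agrees with
`g` outside a compact set -/
def Approximable (M N : Mfd4) (g : M ≃ₜ N) : Prop :=
  ∀ O : Set (M × N), IsOpen O → GraphIn g O →
    ∃ (Φ : Diffeomorph (𝓡 4) (𝓡 4) M N ∞) (C : Set M), IsCompact C ∧ GraphIn Φ O ∧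
      ∀ x, x ∉ C → Φ x = g x

theorem approx_symm {M N : Mfd4} (g : M ≃ₜ N) (hg : Approximable M N g) :
    Approximable N M g.symm := by
  intro O hO hgO
  obtain ⟨Φ, C, hC, hΦ, hoff⟩ := hg (Prod.swap ⁻¹' O) (hO.preimage continuous_swap) (fun x => by
    have := hgO (g x)
    rw [g.symm_apply_apply] at this
    exact this)
  refine ⟨Φ.symm, g '' C, hC.image g.continuous, fun y => ?_, fun y hy => ?_⟩
  · have := hΦ (Φ.symm y)
    rw [Φ.apply_symm_apply] at this
    exact this
  · have h1 : g.symm y ∉ C := fun h => hy ⟨_, h, g.apply_symm_apply y⟩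
    have h2 := hoff _ h1
    rw [g.apply_symm_apply] at h2
    rw [← h2, Φ.symm_apply_apply, h2]

theorem approx_trans {M N P : Mfd4} (g : M ≃ₜ N) (h : N ≃ₜ P)
    (hg : Approximable M N g) (hh : Approximable N P h) : Approximable M P (g.trans h) := by
  intro O hO hgO
  have c1 : Continuous fun z : N × P => ((g.symm z.1, z.2) : M × P) :=
    (g.symm.continuous.comp continuous_fst).prodMk continuous_snd
  obtain ⟨Ψ, D, hD, hΨ, hoff2⟩ := hh ((fun z : N × P => ((g.symm z.1, z.2) : M × P)) ⁻¹' O)
    (hO.preimage c1) (fun y => by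
      have := hgO (g.symm y)
      rw [Homeomorph.trans_apply, g.apply_symm_apply] at this
      exact this)
  have c2 : Continuous fun z : M × N => ((z.1, Ψ z.2) : M × P) :=
    continuous_fst.prodMk (Ψ.continuous.comp continuous_snd)
  obtain ⟨Φ, C, hC, hΦ, hoff⟩ := hg ((fun z : M × N => ((z.1, Ψ z.2) : M × P)) ⁻¹' O)
    (hO.preimage c2) (fun x => by
      have := hΨ (g x)
      simp only [mem_preimage, g.symm_apply_apply] at this
      exact this)
  refine ⟨Φ.trans Ψ, C ∪ g.symm '' D, hC.union (hD.image g.symm.continuous), hΦ, fun x hx => ?_⟩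
  have h1 : Φ x = g x := hoff x fun h => hx (Or.inl h)
  have h2 : g x ∉ D := fun h => hx (Or.inr ⟨_, h, g.symm_apply_apply x⟩)
  change Ψ (Φ x) = h (g x)
  rw [h1, hoff2 _ h2]

theorem near_aux (U V : TopologicalSpace.Opens R4) (g : U ≃ₜ V) (hb : IsCompact (bad g))
    (hg : ∃ ρ : ℝ, 0 < ρ ∧ ∀ r0 : ℝ, 0 < r0 → ∃ r : ℝ, 0 < r ∧ r < r0 ∧
      ∀ b ∈ bad g, ∀ x : U, dist (x : R4) (b : R4) < ρ →
        ∃ L : R4 ≃L[ℝ] R4, ∀ y : U, dist (y : R4) (x : R4) ≤ r →
          ‖L ((g y : R4) - (g x : R4)) - ((y : R4) - (x : R4))‖ ≤ r / 5)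
    (O : Set (U × V)) (hO : IsOpen O) (hgO : GraphIn g O) :
    ∃ (Φ : Diffeomorph (𝓡 4) (𝓡 4) U V ∞) (C : Set U), IsCompact C ∧ GraphIn Φ O ∧
      ∀ x, x ∉ C → Φ x = g x := by
  obtain ⟨ρ, hρ, h1⟩ := hg
  refine Pool.Agent.L7h13.NAf.approx_near (n := 4) (by norm_num) U V g hb (ε := 1 / 5) (by norm_num)
    (by norm_num) hρ (fun r0 hr0 => ?_) O hO hgO
  obtain ⟨r, hr, hr2, h2⟩ := h1 r0 hr0
  refine ⟨r, hr, hr2, fun b hb x hx => ?_⟩
  obtain ⟨L, hL⟩ := h2 b hb x hx
  refine ⟨L, fun y hy => (hL y hy).trans (by linarith)⟩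

/-- near similarities are nearly affine -/
theorem sim_aux (U V : TopologicalSpace.Opens R4) (g : U ≃ₜ V) (hb : IsCompact (bad g))
    (hg : ∃ ρ : ℝ, 0 < ρ ∧ ∀ r0 : ℝ, 0 < r0 → ∃ r : ℝ, 0 < r ∧ r < r0 ∧
      ∀ b ∈ bad g, ∀ x : U, dist (x : R4) (b : R4) < ρ →
        ∃ c : ℝ, 0 < c ∧ ∀ y z : U, dist (y : R4) (x : R4) ≤ r → dist (z : R4) (x : R4) ≤ r →
          |c * dist (g y : R4) (g z : R4) - dist (y : R4) (z : R4)| ≤ r / 41) :
    ∃ ρ : ℝ, 0 < ρ ∧ ∀ r0 : ℝ, 0 < r0 → ∃ r : ℝ, 0 < r ∧ r < r0 ∧
      ∀ b ∈ bad g, ∀ x : U, dist (x : R4) (b : R4) < ρ →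
        ∃ L : R4 ≃L[ℝ] R4, ∀ y : U, dist (y : R4) (x : R4) ≤ r →
          ‖L ((g y : R4) - (g x : R4)) - ((y : R4) - (x : R4))‖ ≤ r / 5 := by
  classical
  obtain ⟨ρ, hρ, h1⟩ := hg
  have hB : IsCompact (Subtype.val '' bad g : Set R4) := hb.image continuous_subtype_val
  obtain ⟨δ, hδ, hδU⟩ := hB.exists_cthickening_subset_open U.isOpen
    (by rintro _ ⟨x, -, rfl⟩; exact x.2)
  refine ⟨min ρ (δ / 2), by positivity, fun r0 hr0 => ?_⟩
  obtain ⟨r, hr, hr2, h2⟩ := h1 (min r0 (δ / 2)) (by positivity)
  refine ⟨r, hr, hr2.trans_le (min_le_left _ _), fun b hbb x hx => ?_⟩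
  obtain ⟨c, hc, h3⟩ := h2 b hbb x (hx.trans_le (min_le_left _ _))
  have hxb : dist (x : R4) (b : R4) < δ / 2 := hx.trans_le (min_le_right _ _)
  have hrδ : r < δ / 2 := hr2.trans_le (min_le_right _ _)
  have hU : ∀ w : R4, ‖w‖ ≤ r → (x : R4) + w ∈ U := by
    intro w hw
    refine hδU (mem_cthickening_of_dist_le _ (b : R4) _ _ ⟨b, hbb, rfl⟩ ?_)
    calc dist ((x : R4) + w) (b : R4) ≤ dist ((x : R4) + w) x + dist (x : R4) (b : R4) :=
          dist_triangle _ _ _
      _ ≤ δ := by
          rw [dist_eq_norm, add_sub_cancel_left]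
          linarith
  obtain ⟨F, hFd⟩ : ∃ F : R4 → R4, F = fun w => if h : (x : R4) + w ∈ U then
    c • ((g ⟨(x : R4) + w, h⟩ : R4) - (g x : R4)) else 0 := ⟨_, rfl⟩
  have hF : ∀ w (h : ‖w‖ ≤ r), F w = c • ((g ⟨(x : R4) + w, hU w h⟩ : R4) - (g x : R4)) := by
    intro w hw
    rw [hFd]
    exact dif_pos (hU w hw)
  have hF0 : F 0 = 0 := by
    rw [hF 0 (by simpa using hr.le)]
    have : (⟨(x : R4) + 0, hU 0 (by simpa using hr.le)⟩ : U) = x := Subtype.ext (add_zero _)
    rw [this, sub_self, smul_zero]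
  obtain ⟨T, hT⟩ := Pool.Agent.L7h13.NAf.exists_linear (n := 4) (F := F) (δ := 1 / 41) (r := r)
    (by norm_num) hr hF0 (by
      intro w w' hw hw'
      have hd : ∀ v : R4, ‖v‖ ≤ r → dist ((x : R4) + v) (x : R4) ≤ r := by
        intro v hv
        rw [dist_eq_norm, add_sub_cancel_left]
        exact hv
      have h4 := h3 ⟨_, hU w hw⟩ ⟨_, hU w' hw'⟩ (hd w hw) (hd w' hw')
      have h5 : ‖F w - F w'‖ = c * dist (g ⟨(x : R4) + w, hU w hw⟩ : R4)
          (g ⟨(x : R4) + w', hU w' hw'⟩ : R4) := by
        rw [hF w hw, hF w' hw', ← smul_sub, sub_sub_sub_cancel_right, norm_smul,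
          Real.norm_of_nonneg hc.le, dist_eq_norm]
      have h6 : ‖w - w'‖ = dist ((x : R4) + w) ((x : R4) + w') := by
        rw [dist_eq_norm, add_sub_add_left_eq_sub]
      rw [h5, h6]
      exact h4.trans (by linarith)) (by norm_num)
  refine ⟨(ContinuousLinearEquiv.smulLeft (Units.mk0 c hc.ne')).trans T, fun y hy => ?_⟩
  have hy' : ‖(y : R4) - (x : R4)‖ ≤ r := by rwa [← dist_eq_norm]
  have h7 := hT _ hy'
  have h8 : F ((y : R4) - (x : R4)) = c • ((g y : R4) - (g x : R4)) := by
    rw [hF _ hy']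
    have : (⟨(x : R4) + ((y : R4) - (x : R4)), hU _ hy'⟩ : U) = y :=
      Subtype.ext (add_sub_cancel _ _)
    rw [this]
  rw [h8] at h7
  refine le_trans (le_of_eq ?_) (h7.trans ?_)
  · rfl
  · have h9 : Real.sqrt ((4 : ℕ) : ℝ) = 2 := by
      rw [show ((4 : ℕ) : ℝ) = 2 ^ 2 by norm_num, Real.sqrt_sq (by norm_num)]
    rw [h9]
    nlinarith

/-- the inclusion of an open subset is a local diffeomorphism -/
theorem ld_val (X : Type) [TopologicalSpace X] [ChartedSpace R4 X]
    (V : TopologicalSpace.Opens X) (x : V) :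
    LocDiff (fun y : V => (y : X)) x :=
  Pool.Agent.Y170.NA.LD_val (n := 4) V x

/-- gluing -/
theorem ext_aux (X Y : Type) [TopologicalSpace X] [TopologicalSpace Y]
    [ChartedSpace R4 X] [ChartedSpace R4 Y] (hX2 : T2Space X) (g : X ≃ₜ Y) (V : TopologicalSpace.Opens X)
    (W : TopologicalSpace.Opens Y) (k : V ≃ₜ W) (hk : ∀ x, (k x : Y) = g x) (hb : bad g ⊆ V)
    (O : Set (X × Y)) (hgO : GraphIn g O)
    (Ψ : Diffeomorph (𝓡 4) (𝓡 4) V W ∞) (D : Set V) (hD : IsCompact D)
    (hΨ : ∀ x : V, ((x : X), (Ψ x : Y)) ∈ O) (hoff : ∀ x, x ∉ D → Ψ x = k x) :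
    ∃ (Φ : Diffeomorph (𝓡 4) (𝓡 4) X Y ∞) (C : Set X), IsCompact C ∧ GraphIn Φ O ∧
      ∀ x, x ∉ C → Φ x = g x := by
  classical
  have hmem : ∀ x : X, x ∈ V ↔ g x ∈ W := by
    intro x
    constructor
    · intro hx
      rw [← hk ⟨x, hx⟩]
      exact (k ⟨x, hx⟩).2
    · intro hx
      have h1 := hk (k.symm ⟨g x, hx⟩)
      rw [k.apply_symm_apply] at h1
      have h2 : x = (k.symm ⟨g x, hx⟩ : X) := g.injective h1
      rw [h2]
      exact (k.symm ⟨g x, hx⟩).2
  let F : X → Y := fun x => if h : x ∈ V then (Ψ ⟨x, h⟩ : Y) else g x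
  have hFV : ∀ x (h : x ∈ V), F x = Ψ ⟨x, h⟩ := fun x h => dif_pos h
  have hFn : ∀ x, x ∉ V → F x = g x := fun x h => dif_neg h
  let C : Set X := (fun y : V => (y : X)) '' D
  have hC : IsCompact C := hD.image continuous_subtype_val
  have hFC : ∀ x, x ∉ C → F x = g x := by
    intro x hx
    by_cases h : x ∈ V
    · rw [hFV x h, hoff ⟨x, h⟩ (fun h1 => hx ⟨_, h1, rfl⟩), hk]
    · exact hFn x h
  have hbij : Bijective F := by
    constructor
    · intro x y hxy
      by_cases hx : x ∈ V <;> by_cases hy : y ∈ V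
      · rw [hFV x hx, hFV y hy] at hxy
        exact congrArg Subtype.val (Ψ.injective (Subtype.ext hxy))
      · rw [hFV x hx, hFn y hy] at hxy
        exact absurd ((hmem y).2 (hxy ▸ (Ψ ⟨x, hx⟩).2)) hy
      · rw [hFn x hx, hFV y hy] at hxy
        exact absurd ((hmem x).2 (hxy ▸ (Ψ ⟨y, hy⟩).2)) hx
      · rw [hFn x hx, hFn y hy] at hxy
        exact g.injective hxy
    · intro y
      by_cases hy : y ∈ W
      · obtain ⟨⟨x, hx⟩, hxy⟩ := Ψ.surjective ⟨y, hy⟩
        refine ⟨x, ?_⟩
        rw [hFV x hx]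
        exact congrArg (fun w : W => (w : Y)) hxy
      · have h1 : g.symm y ∉ V := fun h => hy (by
          have := (hmem _).1 h
          rwa [g.apply_symm_apply] at this)
        exact ⟨g.symm y, by rw [hFn _ h1, g.apply_symm_apply]⟩
  have hld : ∀ x, LocDiff F x := by
    intro x
    by_cases hx : x ∈ V
    · obtain ⟨p, hp1, hp2, -, hp4⟩ := (Pool.Agent.Y170.NA.LD_val (n := 4) V ⟨x, hx⟩).exists_inverse
      have h1 : LocDiff (fun z => ((Ψ (p z) : W) : Y)) x := by
        have h2 : Pool.Agent.Y522.LD 4 (fun w : V => ((Ψ w : W) : Y)) (p x) := by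
          have h3 : Pool.Agent.Y522.LD 4 (Ψ : V → W) (p x) := Ψ.isLocalDiffeomorph _
          exact Pool.Agent.Y522.LD.comp_fun (Pool.Agent.Y170.NA.LD_val (n := 4) W (Ψ (p x))) h3
        exact Pool.Agent.Y522.LD.comp_fun (g := fun w : V => ((Ψ w : W) : Y)) (f := p) h2 hp1
      refine Pool.Agent.Y522.LD.congr h1 ?_
      filter_upwards [hp4, V.isOpen.mem_nhds hx] with z hz hzV
      rw [hFV z hzV]
      have h4 : p z = ⟨z, hzV⟩ := Subtype.ext hz
      rw [h4]
    · have h1 : LocDiff g x := by
        by_contra h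
        exact hx (hb h)
      refine Pool.Agent.Y522.LD.congr h1 ?_
      have h2 : x ∉ C := by
        rintro ⟨y, -, rfl⟩
        exact hx y.2
      filter_upwards [hC.isClosed.isOpen_compl.mem_nhds h2] with z hz
      exact hFC z hz
  have hl : IsLocalDiffeomorph (𝓡 4) (𝓡 4) ∞ F := hld
  refine ⟨hl.diffeomorphOfBijective hbij, C, hC, fun x => ?_, hFC⟩
  change (x, F x) ∈ O
  by_cases hx : x ∈ V
  · rw [hFV x hx]
    exact hΨ ⟨x, hx⟩
  · rw [hFn x hx]
    exact hgO x

theorem approx_ext {M N : Mfd4} (g : M ≃ₜ N) (V : TopologicalSpace.Opens M)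
    (W : TopologicalSpace.Opens N) (k : M.sub V ≃ₜ N.sub W)
    (hk : ∀ x, N.incl W (k x) = g (M.incl V x)) (hb : bad g ⊆ V)
    (h : Approximable (M.sub V) (N.sub W) k) : Approximable M N g := by
  intro O hO hgO
  have c1 : Continuous fun z : M.sub V × N.sub W => ((M.incl V z.1, N.incl W z.2) : M × N) :=
    (continuous_subtype_val.comp continuous_fst).prodMk (continuous_subtype_val.comp continuous_snd)
  obtain ⟨Ψ, D, hD, hΨ, hoff⟩ := h _ (hO.preimage c1) (fun x => by
    show (M.incl V x, N.incl W (k x)) ∈ O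
    rw [hk]
    exact hgO _)
  exact ext_aux M N M.hausdorff g V W k hk hb O hgO Ψ D hD hΨ hoff

theorem approx_of_mild {M N : Mfd4} (g : M ≃ₜ N) (hg : Mild M N g) : Approximable M N g := by
  induction hg with
  | @nearlyAffine U V g hb hn => exact near_aux U V g hb hn
  | inverse g _ ih => exact approx_symm g ih
  | composition g h _ _ ih1 ih2 => exact approx_trans g h ih1 ih2
  | limit g h C h1 _ ih =>
    intro O hO hgO
    obtain ⟨hC, hG, hoff⟩ := h1 O hO hgO
    obtain ⟨Φ, D, hD, hΦ, hoff2⟩ := ih O hO hgO O hO hG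
    refine ⟨Φ, C O ∪ D, hC.union hD, hΦ, fun x hx => ?_⟩
    rw [hoff2 x fun h => hx (Or.inr h), hoff x fun h => hx (Or.inl h)]
  | extension g V W k hk hb _ ih => exact approx_ext g V W k hk hb ih

theorem mild_of_locDiff {U V : TopologicalSpace.Opens std} (g : std.sub U ≃ₜ std.sub V)
    (h : ∀ x, LocDiff g x) : Mild (std.sub U) (std.sub V) g := by
  have h1 : bad g = ∅ := eq_empty_of_forall_notMem fun x hx => hx (h x)
  refine Mild.nearlyAffine _ ?_ ⟨1, one_pos, fun r0 hr0 => ⟨r0 / 2, by positivity, by linarith,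
    fun b hb => ?_⟩⟩
  · rw [h1]
    exact isCompact_empty
  · rw [h1] at hb
    exact absurd hb (notMem_empty b)

/-- `G` is a diffeomorphism of `ℝ⁴`, equal to a linear isometry outside a compact set (so it extends
to a diffeomorphism of `S⁴`) -/
def StandardAtInfinity (G : R4 → R4) : Prop :=
  ContDiff ℝ ∞ G ∧ (∃ K : R4 → R4, ContDiff ℝ ∞ K ∧ LeftInverse K G ∧ RightInverse K G) ∧
    ∃ (O : R4 ≃ₗᵢ[ℝ] R4) (R : ℝ), ∀ x, R ≤ ‖x‖ → G x = O x

/-- `S` is the boundary of a mild ball: the ball is parametrized by `H`, which is injective on a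
neighbourhood of the closed unit ball, a local diffeomorphism near the unit sphere, and restricts to a
mild homeomorphism of the open unit ball onto an open subset `V` of `ℝ⁴` -/
def BoundsMildBall (S : Set R4) : Prop :=
  ∃ (H : R4 → R4) (δ : ℝ) (V : TopologicalSpace.Opens std)
    (g : std.sub unitBall ≃ₜ std.sub V), 0 < δ ∧ InjOn H (ball 0 (1 + δ)) ∧
      (∀ x, 1 ≤ ‖x‖ → ‖x‖ < 1 + δ → LocDiff H x) ∧
      (∀ x, std.incl V (g x) = H (std.incl unitBall x)) ∧
      Mild (std.sub unitBall) (std.sub V) g ∧ H '' sphere 0 1 = S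

theorem locDiff_of_diffeo (G K : R4 → R4) (hG : ContDiff ℝ ∞ G) (hK : ContDiff ℝ ∞ K)
    (h1 : LeftInverse K G) (h2 : RightInverse K G) (x : R4) : LocDiff G x := by
  let Φ : Diffeomorph (𝓡 4) (𝓡 4) R4 R4 ∞ :=
    { toFun := G
      invFun := K
      left_inv := h1
      right_inv := h2
      contMDiff_toFun := hG.contMDiff
      contMDiff_invFun := hK.contMDiff }
  exact Φ.isLocalDiffeomorph x

theorem unknotted_iff (S : Set R4) :
    (∃ G : R4 → R4, StandardAtInfinity G ∧ G '' sphere 0 1 = S) ↔ BoundsMildBall S := by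
  constructor
  · rintro ⟨G, ⟨hG, ⟨K, hK, h1, h2⟩, -⟩, rfl⟩
    have hld := locDiff_of_diffeo G K hG hK h1 h2
    let U : TopologicalSpace.Opens R4 := ⟨ball (0 : R4) 1, isOpen_ball⟩
    let V : TopologicalSpace.Opens R4 := ⟨K ⁻¹' ball (0 : R4) 1,
      isOpen_ball.preimage hK.continuous⟩
    have hm : ∀ x : U, G x.1 ∈ V := fun x => by
      show K (G x.1) ∈ ball (0 : R4) 1
      rw [h1]
      exact x.2
    have hm2 : ∀ x : V, K x.1 ∈ U := fun x => x.2
    let g : U ≃ₜ V :=
      { toFun := fun x => ⟨G x.1, hm x⟩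
        invFun := fun y => ⟨K y.1, hm2 y⟩
        left_inv := fun x => Subtype.ext (h1 x.1)
        right_inv := fun y => Subtype.ext (h2 y.1)
        continuous_toFun := (hG.continuous.comp continuous_subtype_val).subtype_mk hm
        continuous_invFun := (hK.continuous.comp continuous_subtype_val).subtype_mk hm2 }
    have hg : ∀ x : U, LocDiff g x := by
      intro x
      obtain ⟨p, hp1, hp2, -, hp4⟩ :=
        (Pool.Agent.Y170.NA.LD_val (n := 4) V (g x)).exists_inverse
      have h3 : Pool.Agent.Y522.LD 4 (fun w : U => G w.1) x :=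
        Pool.Agent.Y522.LD.comp_fun (g := G) (f := fun w : U => (w : R4)) (hld x.1)
          (Pool.Agent.Y170.NA.LD_val (n := 4) U x)
      have h5 : Pool.Agent.Y522.LD 4 (fun w : U => p (G w.1)) x :=
        Pool.Agent.Y522.LD.comp_fun (g := p) (f := fun w : U => G w.1) hp1 h3
      refine Pool.Agent.Y522.LD.congr h5 ?_
      have h6 : ContinuousAt (fun w : U => G w.1) x :=
        (hG.continuous.comp continuous_subtype_val).continuousAt
      filter_upwards [h6.tendsto.eventually hp4] with w hw
      exact Subtype.ext hw.symm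
    refine ⟨G, 1, V, g, one_pos, fun x _ y _ hxy => ?_, fun x _ _ => hld x, fun x => rfl,
      mild_of_locDiff (U := unitBall) (V := V) g hg, rfl⟩
    rw [← h1 x, ← h1 y, hxy]
  · rintro ⟨H, δ, V, g, hδ, hi, hs, hg, ht, rfl⟩
    obtain ⟨Φ, C, hC, -, hoff⟩ := approx_of_mild g ht univ isOpen_univ (fun _ => mem_univ _)
    obtain ⟨G, O, R, hb, hL, h1, h2, h3⟩ := Pool.Agent.R865.SchT.sch_of_diffeo 4 H δ hδ hi hs V
      g hg g.surjective Φ C hC hoff
    obtain ⟨hG, hK⟩ := Pool.Agent.Y522.smooth_inverse hb hL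
    refine ⟨G, ⟨hG, hK, O, R, h3⟩, ?_⟩
    exact image_congr fun x hx => h1 x (by simpa using hx)

theorem result :
    (∀ S : Set R4, (∃ G : R4 → R4, StandardAtInfinity G ∧ G '' sphere 0 1 = S) ↔
      BoundsMildBall S) ∧
    ∀ (U V : TopologicalSpace.Opens std) (g : std.sub U ≃ₜ std.sub V), IsCompact (bad g) →
      NearSimilarity U V g → Mild (std.sub U) (std.sub V) g :=
  ⟨unknotted_iff, fun U V g hb hg => Mild.nearlyAffine g hb (sim_aux U V g hb hg)⟩

end Pool.Agent.Results.MP_6c077c_gt.NearlyAffine
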