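import Pool.Agent.L7h86.RE.Fin

/-!
# Smooth Schoenflies for Reifenberg flat spheres

A subset `S` of `ℝⁿ` is `δ`-flat up to the scale `r₀` if for all `x ∈ S` and all `r ≤ r₀` the set `S ∩ B(x, r)` lies
between two parallel hyperplanes at distance `δ r` from `x` (Reifenberg's condition, in one direction: Jones' beta
numbers are at most `δ`; the hyperplanes depend on `x` and `r`, and may turn by any angle when `r` runs through many
scales). Area and curvature of such hypersurfaces are not bounded in terms of `δ`, `r₀`.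

Theorem. Let `W`, `W'` be compact regions of `ℝⁿ`, `n ≥ 3`, with smooth boundaries which are `δ`-flat up to the scale
`r₀`, such that `W` and `W'` differ only in the `η r₀`-neighbourhood of `∂W`. If `9 n (δ + η) ≤ 1` (`δ + η ≤ 1/36` for
`n = 4`) then a smooth ambient isotopy with compact support carries `W` to `W'`. So the smoothly unknotted spheres
form a closed and open subset of the `δ`-flat smooth 3-spheres of `ℝ⁴` in the Hausdorff distance, with an explicit
size of the neighbourhoods.

In particular a region `W` whose boundary is `δ`-flat up to the scale `2 δ R` and lies between the spheres of the radii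
`(1 ± 2 δ η) R` around `c` is carried to the ball `B(c, R)`: for `n = 4` a smooth 3-sphere which is `1/72`-flat up to the
scale `R/36`, encloses `c` and stays within the distance `R/2592` of the round sphere of radius `R` around `c` is
smoothly unknotted.

Proof. Let `φ` be a radial kernel which is nearly the indicator function of the unit ball, `w` a smooth version of the
indicator function of `W`, and `v(x, r) = ∫ φ(s) w(x + r s) ds`. The level `{v(·, r) = 1/2 ∫ φ}` is regular at ALL scales
`0 ≤ r ≤ r₁`, `r₁` about `r₀ / 2`. For if the ball `B(x, r)` is divided by `W` into two equal parts, then `W` is in this ball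
a half space `⟪ν, y⟫ ≤ a` up to a slab (the two sides of the slab are on different sides of `∂W`: this is carried from
small to large scales), hence `a` is small, and the derivative of `v(·, r)` in the direction `ν` is at most
`-1/2 ∫ φ + (slab)`; here `∫ ⟪ν, s⟫² g(s) ds = ∫ φ` for the weight `g` with `∂_ν φ = -⟪ν, s⟫ g`, and this gives the constant
`9 n`. So `∂W` is isotopic to the level set at the scale `r₁`; and at this scale the functions `v` of `W` and `W'` can be
joined by a segment, with regular level sets.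

Joint work: the isotopy of regular level sets, the key inequality and the sides of the slab are by helper89, the
kernel, the smoothness of the mollification, defining functions and the smooth step by helper77.
-/

set_option autoImplicit false

open Set Filter Topology Metric Function
open scoped ContDiff RealInnerProductSpace

noncomputable section

namespace Pool.Agent.Results.MP_6c077c_gt.ReifenbergFlatSpheres

/-- `ℝⁿ` -/
abbrev R (n : ℕ) : Type := EuclideanSpace ℝ (Fin n)

/-- `W` is a compact region with smooth boundary -/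
def SmoothRegion {n : ℕ} (W : Set (R n)) : Prop :=
  IsCompact W ∧ ∃ g : R n → ℝ, ContDiff ℝ ∞ g ∧ W = {x | g x ≤ 0} ∧ ∀ x, g x = 0 → fderiv ℝ g x ≠ 0

/-- `S` is `δ`-flat up to the scale `r₀`: `S ∩ B(x, r)` lies between two parallel hyperplanes at distance `δ r`
from `x`, for all `x ∈ S` and `0 < r ≤ r₀` -/
def Flat {n : ℕ} (δ r₀ : ℝ) (S : Set (R n)) : Prop :=
  ∀ x ∈ S, ∀ r : ℝ, 0 < r → r ≤ r₀ → ∃ ν : R n, ‖ν‖ = 1 ∧ ∀ y ∈ S, ‖y - x‖ ≤ r → |⟪ν, y - x⟫| ≤ δ * r

/-- There is a smooth ambient isotopy with compact support which carries `W` to `W'`: diffeomorphisms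
`Φ(t, ·)` with inverses `Ψ(t, ·)`, smooth in both variables, `Φ(0, ·)` the identity, `Φ(t, ·)` the identity
outside a ball, and `Φ(1, ·)` maps `W` onto `W'`. -/
def Isotopic {n : ℕ} (W W' : Set (R n)) : Prop :=
  ∃ Φ Ψ : ℝ × R n → R n, ContDiff ℝ ∞ Φ ∧ ContDiff ℝ ∞ Ψ ∧ (∀ t x, Ψ (t, Φ (t, x)) = x) ∧
    (∀ t x, Φ (t, Ψ (t, x)) = x) ∧ (∀ x, Φ (0, x) = x) ∧ (∃ ρ : ℝ, ∀ t x, ρ ≤ ‖x‖ → Φ (t, x) = x) ∧
    (fun x => Φ (1, x)) '' W = W'

theorem result :
    (∀ (n : ℕ) (δ η r : ℝ) (W W' : Set (R n)), 3 ≤ n → 0 ≤ δ → 0 ≤ η → 0 < r → 9 * n * (δ + η) ≤ 1 →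
      SmoothRegion W → SmoothRegion W' → Flat δ r (frontier W) → Flat δ r (frontier W') →
      (∀ y, (y ∈ W ↔ y ∉ W') → ∃ x ∈ frontier W, ‖y - x‖ ≤ η * r) → Isotopic W W') ∧
    (∀ (n : ℕ) (δ η ρ : ℝ) (c : R n) (W : Set (R n)), 3 ≤ n → 0 < δ → 0 ≤ η → 0 < ρ →
      9 * n * (δ + η) ≤ 1 → SmoothRegion W → Flat δ (2 * δ * ρ) (frontier W) →
      closedBall c ((1 - 2 * δ * η) * ρ) ⊆ W → W ⊆ closedBall c ((1 + 2 * δ * η) * ρ) →
      Isotopic W (closedBall c ρ)) := by
  constructor
  · rintro n δ η r W W' hn hδ hη hr hsum ⟨hc, g, hg, rfl, hg0⟩ ⟨hc', g', hg', rfl, hg0'⟩ hf hf' hcl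
    have hD : Pool.Agent.L7h86.RE.Defines g := ⟨hg, hc, hg0⟩
    have hD' : Pool.Agent.L7h86.RE.Defines g' := ⟨hg', hc', hg0'⟩
    rw [Pool.Agent.L7h86.RE.frontier_eq hD] at hf hcl
    rw [Pool.Agent.L7h86.RE.frontier_eq hD'] at hf'
    exact Pool.Agent.L7h86.RE.main' n hn δ η r hδ hη hr hsum g g' hD hD' hf hf' hcl
  · rintro n δ η ρ c W hn hδ hη hρ hsum ⟨hc, g, hg, rfl, hg0⟩ hf hin hout
    have hD : Pool.Agent.L7h86.RE.Defines g := ⟨hg, hc, hg0⟩
    rw [Pool.Agent.L7h86.RE.frontier_eq hD] at hf
    refine Pool.Agent.L7h86.RE.near_ball n hn δ η ρ hδ hη hρ hsum c g hD hf (fun y hy => ?_)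
      fun y hy => ?_
    · exact hin (mem_closedBall_iff_norm.2 (hy.trans (by linarith)))
    · exact (mem_closedBall_iff_norm.1 (hout hy)).trans (by linarith)

end Pool.Agent.Results.MP_6c077c_gt.ReifenbergFlatSpheres
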