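import Pool.Agent.R865.SchT
import Pool.Agent.R765.CO
import Pool.Agent.R765.CAll

/-!
# Smooth Schoenflies: a smooth 3-sphere is unknotted if and only if it bounds a tame ball

A subset `S` of `ℝ⁴` is the image of the unit sphere under a diffeomorphism of `ℝ⁴` which is a linear
isometry near infinity (so `S` is a smooth 3-sphere which is smoothly unknotted in `S⁴ = ℝ⁴ ∪ {∞}`) if
and only if it bounds a *tame ball*: there is a map `H` of a neighbourhood of the closed unit ball which
is injective, a local diffeomorphism near the unit sphere, with `H (S³) = S`, and which restricts to a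
tame homeomorphism from the open unit ball onto its image.

The tame homeomorphisms are the least class of homeomorphisms between smooth 4-manifolds (without
boundary, possibly noncompact, possibly exotic) which contains the homeomorphisms with a compact set of
points at which they are not local diffeomorphisms and which

* are smooth (with an inverse which need not be differentiable) with derivatives of rank at least three,
  or
* are at every point a local diffeomorphism or cone monotone,

and which is closed under inverses, compositions, limits relative to infinity and extensions: a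
homeomorphism whose restriction to a neighbourhood of its compact set of bad points is tame is tame.
So different parts of the ball may be parametrized with different pieces through different
intermediate smooth manifolds. (By Brown and Freedman every smooth 3-sphere in `ℝ⁴` bounds a ball
with a parametrization which is a local diffeomorphism near the unit sphere; the smooth Schoenflies
problem asks whether this homeomorphism can always be chosen tame.)
-/

set_option autoImplicit false

open Set Filter Topology Metric Function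
open scoped Manifold ContDiff

noncomputable section

namespace Pool.Agent.Results.MP_6c077c_gt.UnknottedIffTame

/-- `ℝ⁴` -/
abbrev R4 : Type := EuclideanSpace ℝ (Fin 4)

/-- smooth 4-manifolds (Hausdorff, without boundary, possibly noncompact) -/
structure Mfd4 where
  /-- the set of points -/
  pts : Type
  [top : TopologicalSpace pts]
  [chart : ChartedSpace R4 pts]
  smooth : IsManifold (𝓡 4) ∞ pts
  hausdorff : T2Space pts

instance : CoeSort Mfd4 Type := ⟨Mfd4.pts⟩

instance (M : Mfd4) : TopologicalSpace M := M.top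

instance (M : Mfd4) : ChartedSpace R4 M := M.chart

/-- an open subset of a smooth 4-manifold as a smooth 4-manifold -/
def Mfd4.sub (M : Mfd4) (V : TopologicalSpace.Opens M) : Mfd4 where
  pts := V
  smooth := by
    have := M.smooth
    infer_instance
  hausdorff := by
    have := M.hausdorff
    infer_instance

/-- the inclusion of an open subset -/
def Mfd4.incl (M : Mfd4) (V : TopologicalSpace.Opens M) : M.sub V → M := fun y => (show V from y).1

/-- `ℝ⁴` with its standard smooth structure -/
def std : Mfd4 where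
  pts := R4
  smooth := inferInstance
  hausdorff := inferInstance

/-- the open unit ball of `ℝ⁴` -/
def unitBall : TopologicalSpace.Opens std :=
  (⟨ball (0 : R4) 1, isOpen_ball⟩ : TopologicalSpace.Opens R4)

section defs

variable {M N : Type} [TopologicalSpace M] [TopologicalSpace N] [ChartedSpace R4 M]
  [ChartedSpace R4 N]

/-- `f` is a map of class `C^∞` -/
def Smooth (f : M → N) : Prop := ContMDiff (𝓡 4) (𝓡 4) ∞ f

/-- the derivative of `f` at `x`, as a linear map from `ℝ⁴` to `ℝ⁴` (in the preferred charts) -/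
def der (f : M → N) (x : M) : R4 →L[ℝ] R4 := mfderiv (𝓡 4) (𝓡 4) f x

/-- the rank of a linear map -/
def rank (L : R4 →L[ℝ] R4) : ℕ := Module.finrank ℝ (LinearMap.range L.toLinearMap)

/-- `f` is a local diffeomorphism (of class `C^∞`, with smooth inverse) at `x` -/
def LocDiff (f : M → N) (x : M) : Prop := IsLocalDiffeomorphAt (𝓡 4) (𝓡 4) ∞ f x

/-- For every direction `v` the increments of `h` near `0` in the directions near `v` lie in a
proper cone: there are `r > 0` and a linear functional `ℓ` with `r ‖h q - h p‖ < ℓ (h q - h p)` for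
all `p`, `q` in the ball of radius `r` about `0` such that `‖q - p - t v‖ ≤ r t` for some
`t > 0`. -/
def ConeIncrements (h : R4 → R4) : Prop :=
  ∀ v : R4, v ≠ 0 → ∃ (r : ℝ) (ℓ : R4 →L[ℝ] ℝ), 0 < r ∧ ∀ p q : R4, ‖p‖ ≤ r → ‖q‖ ≤ r →
    ∀ t : ℝ, 0 < t → ‖q - p - t • v‖ ≤ r * t → r * ‖h q - h p‖ < ℓ (h q - h p)

/-- `f` is cone monotone at `x`: it has increments in proper cones in some smooth coordinates
around `x = A 0` and around `f x` (`A` is a smooth parametrization around `x`, `B` a smooth
coordinate system around `f x`). -/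
def ConeMonotone (f : M → N) (x : M) : Prop :=
  ∃ (A : R4 → M) (B : N → R4), A 0 = x ∧ LocDiff A 0 ∧ LocDiff B (f x) ∧
    ConeIncrements fun p => B (f (A p))

/-- the set of the points at which `f` is not a local diffeomorphism -/
def bad (f : M → N) : Set M := {x | ¬ LocDiff f x}

/-- the graph of `f` is contained in `O` -/
def GraphIn (f : M → N) (O : Set (M × N)) : Prop := ∀ x, (x, f x) ∈ O

end defs

/-- The least class of homeomorphisms of smooth 4-manifolds which contains the ones with a compact set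
of bad points which are smooth with derivatives of rank at least three or everywhere local
diffeomorphisms or cone monotone, and which is closed under inverses, compositions, limits relative
to infinity and extensions from open neighbourhoods of the (compact) set of bad points. -/
inductive Tame : (M N : Mfd4) → (M ≃ₜ N) → Prop
  | corankOne {M N : Mfd4} (g : M ≃ₜ N) : IsCompact (bad g) →
      Smooth g → (∀ x, 3 ≤ rank (der g x)) → Tame M N g
  | coneMonotone {M N : Mfd4} (g : M ≃ₜ N) : IsCompact (bad g) →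
      (∀ x, LocDiff g x ∨ ConeMonotone g x) → Tame M N g
  | inverse {M N : Mfd4} (g : M ≃ₜ N) : Tame M N g → Tame N M g.symm
  | composition {M N P : Mfd4} (g : M ≃ₜ N) (h : N ≃ₜ P) :
      Tame M N g → Tame N P h → Tame M P (g.trans h)
  | limit {M N : Mfd4} (g : M ≃ₜ N) (h : Set (M × N) → (M ≃ₜ N)) (C : Set (M × N) → Set M) :
      (∀ O, IsOpen O → GraphIn g O → IsCompact (C O) ∧ GraphIn (h O) O ∧
        ∀ x, x ∉ C O → h O x = g x) →
      (∀ O, IsOpen O → GraphIn g O → Tame M N (h O)) → Tame M N g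
  | extension {M N : Mfd4} (g : M ≃ₜ N) (V : TopologicalSpace.Opens M)
      (W : TopologicalSpace.Opens N) (k : M.sub V ≃ₜ N.sub W) :
      (∀ x, N.incl W (k x) = g (M.incl V x)) → bad g ⊆ V →
      Tame (M.sub V) (N.sub W) k → Tame M N g

/-- every neighbourhood of the graph of `g` contains the graph of a diffeomorphism which agrees with
`g` outside a compact set -/
def Approximable (M N : Mfd4) (g : M ≃ₜ N) : Prop :=
  ∀ O : Set (M × N), IsOpen O → GraphIn g O →
    ∃ (Φ : Diffeomorph (𝓡 4) (𝓡 4) M N ∞) (C : Set M), IsCompact C ∧ GraphIn Φ O ∧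
      ∀ x, x ∉ C → Φ x = g x

theorem approx_symm {M N : Mfd4} (g : M ≃ₜ N) (hg : Approximable M N g) :
    Approximable N M g.symm := by
  intro O hO hgO
  obtain ⟨Φ, C, hC, hΦ, hoff⟩ := hg (Prod.swap ⁻¹' O) (hO.preimage continuous_swap) (fun x => by
    have := hgO (g x)
    rw [g.symm_apply_apply] at this
    exact this)
  refine ⟨Φ.symm, g '' C, hC.image g.continuous, fun y => ?_, fun y hy => ?_⟩
  · have := hΦ (Φ.symm y)
    rw [Φ.apply_symm_apply] at this
    exact this
  · have h1 : g.symm y ∉ C := fun h => hy ⟨_, h, g.apply_symm_apply y⟩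
    have h2 := hoff _ h1
    rw [g.apply_symm_apply] at h2
    rw [← h2, Φ.symm_apply_apply, h2]

theorem approx_trans {M N P : Mfd4} (g : M ≃ₜ N) (h : N ≃ₜ P)
    (hg : Approximable M N g) (hh : Approximable N P h) : Approximable M P (g.trans h) := by
  intro O hO hgO
  have c1 : Continuous fun z : N × P => ((g.symm z.1, z.2) : M × P) :=
    (g.symm.continuous.comp continuous_fst).prodMk continuous_snd
  obtain ⟨Ψ, D, hD, hΨ, hoff2⟩ := hh ((fun z : N × P => ((g.symm z.1, z.2) : M × P)) ⁻¹' O)
    (hO.preimage c1) (fun y => by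
      have := hgO (g.symm y)
      rw [Homeomorph.trans_apply, g.apply_symm_apply] at this
      exact this)
  have c2 : Continuous fun z : M × N => ((z.1, Ψ z.2) : M × P) :=
    continuous_fst.prodMk (Ψ.continuous.comp continuous_snd)
  obtain ⟨Φ, C, hC, hΦ, hoff⟩ := hg ((fun z : M × N => ((z.1, Ψ z.2) : M × P)) ⁻¹' O)
    (hO.preimage c2) (fun x => by
      have := hΨ (g x)
      simp only [mem_preimage, g.symm_apply_apply] at this
      exact this)
  refine ⟨Φ.trans Ψ, C ∪ g.symm '' D, hC.union (hD.image g.symm.continuous), hΦ, fun x hx => ?_⟩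
  have h1 : Φ x = g x := hoff x fun h => hx (Or.inl h)
  have h2 : g x ∉ D := fun h => hx (Or.inr ⟨_, h, g.symm_apply_apply x⟩)
  change Ψ (Φ x) = h (g x)
  rw [h1, hoff2 _ h2]

theorem corank_aux (X Y : Type) [TopologicalSpace X] [TopologicalSpace Y]
    [ChartedSpace R4 X] [ChartedSpace R4 Y] (hX1 : IsManifold (𝓡 4) ∞ X) (hX2 : T2Space X)
    (hY : IsManifold (𝓡 4) ∞ Y) (g : X ≃ₜ Y) (hb : IsCompact (bad g)) (hg : Smooth g)
    (hr : ∀ x, 3 ≤ rank (der g x)) (O : Set (X × Y)) (hO : IsOpen O) (hgO : GraphIn g O) :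
    ∃ (Φ : Diffeomorph (𝓡 4) (𝓡 4) X Y ∞) (C : Set X), IsCompact C ∧ GraphIn Φ O ∧
      ∀ x, x ∉ C → Φ x = g x := by
  obtain ⟨F, C, hC, hF, hd, hG, hoff⟩ :=
    Pool.Agent.R765.corankOne (m := 3) g hg (fun x _ => hr x) hb O hO hgO
  have hl : IsLocalDiffeomorph (𝓡 4) (𝓡 4) ∞ F := hd
  exact ⟨hl.diffeomorphOfBijective hF, C, hC, hG, hoff⟩

theorem cone_aux (X Y : Type) [TopologicalSpace X] [TopologicalSpace Y]
    [ChartedSpace R4 X] [ChartedSpace R4 Y] (hX1 : IsManifold (𝓡 4) ∞ X) (hX2 : T2Space X)
    (hY : IsManifold (𝓡 4) ∞ Y) (g : X ≃ₜ Y) (hb : IsCompact (bad g))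
    (hg : ∀ x, LocDiff g x ∨ ConeMonotone g x)
    (O : Set (X × Y)) (hO : IsOpen O) (hgO : GraphIn g O) :
    ∃ (Φ : Diffeomorph (𝓡 4) (𝓡 4) X Y ∞) (C : Set X), IsCompact C ∧ GraphIn Φ O ∧
      ∀ x, x ∉ C → Φ x = g x := by
  obtain ⟨F, C, hC, hF, hd, hG, hoff⟩ := Pool.Agent.R765.coneMonotone 4 X Y g O (fun x => by
    rcases hg x with h | ⟨A, B, h1, h2, h3, h4⟩
    · exact Or.inl h
    · exact Or.inr ⟨B, h3, A, h1, h2, h4⟩) hb hO hgO
  have hl : IsLocalDiffeomorph (𝓡 4) (𝓡 4) ∞ F := hd
  exact ⟨hl.diffeomorphOfBijective hF, C, hC, hG, hoff⟩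

/-- the inclusion of an open subset is a local diffeomorphism -/
theorem ld_val (X : Type) [TopologicalSpace X] [ChartedSpace R4 X]
    (V : TopologicalSpace.Opens X) (x : V) :
    LocDiff (fun y : V => (y : X)) x :=
  Pool.Agent.Y170.NA.LD_val (n := 4) V x

/-- gluing -/
theorem ext_aux (X Y : Type) [TopologicalSpace X] [TopologicalSpace Y]
    [ChartedSpace R4 X] [ChartedSpace R4 Y] (hX2 : T2Space X) (g : X ≃ₜ Y) (V : TopologicalSpace.Opens X)
    (W : TopologicalSpace.Opens Y) (k : V ≃ₜ W) (hk : ∀ x, (k x : Y) = g x) (hb : bad g ⊆ V)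
    (O : Set (X × Y)) (hgO : GraphIn g O)
    (Ψ : Diffeomorph (𝓡 4) (𝓡 4) V W ∞) (D : Set V) (hD : IsCompact D)
    (hΨ : ∀ x : V, ((x : X), (Ψ x : Y)) ∈ O) (hoff : ∀ x, x ∉ D → Ψ x = k x) :
    ∃ (Φ : Diffeomorph (𝓡 4) (𝓡 4) X Y ∞) (C : Set X), IsCompact C ∧ GraphIn Φ O ∧
      ∀ x, x ∉ C → Φ x = g x := by
  classical
  have hmem : ∀ x : X, x ∈ V ↔ g x ∈ W := by
    intro x
    constructor
    · intro hx
      rw [← hk ⟨x, hx⟩]
      exact (k ⟨x, hx⟩).2
    · intro hx
      have h1 := hk (k.symm ⟨g x, hx⟩)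
      rw [k.apply_symm_apply] at h1
      have h2 : x = (k.symm ⟨g x, hx⟩ : X) := g.injective h1
      rw [h2]
      exact (k.symm ⟨g x, hx⟩).2
  let F : X → Y := fun x => if h : x ∈ V then (Ψ ⟨x, h⟩ : Y) else g x
  have hFV : ∀ x (h : x ∈ V), F x = Ψ ⟨x, h⟩ := fun x h => dif_pos h
  have hFn : ∀ x, x ∉ V → F x = g x := fun x h => dif_neg h
  let C : Set X := (fun y : V => (y : X)) '' D
  have hC : IsCompact C := hD.image continuous_subtype_val
  have hFC : ∀ x, x ∉ C → F x = g x := by
    intro x hx
    by_cases h : x ∈ V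
    · rw [hFV x h, hoff ⟨x, h⟩ (fun h1 => hx ⟨_, h1, rfl⟩), hk]
    · exact hFn x h
  have hbij : Bijective F := by
    constructor
    · intro x y hxy
      by_cases hx : x ∈ V <;> by_cases hy : y ∈ V
      · rw [hFV x hx, hFV y hy] at hxy
        exact congrArg Subtype.val (Ψ.injective (Subtype.ext hxy))
      · rw [hFV x hx, hFn y hy] at hxy
        exact absurd ((hmem y).2 (hxy ▸ (Ψ ⟨x, hx⟩).2)) hy
      · rw [hFn x hx, hFV y hy] at hxy
        exact absurd ((hmem x).2 (hxy ▸ (Ψ ⟨y, hy⟩).2)) hx
      · rw [hFn x hx, hFn y hy] at hxy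
        exact g.injective hxy
    · intro y
      by_cases hy : y ∈ W
      · obtain ⟨⟨x, hx⟩, hxy⟩ := Ψ.surjective ⟨y, hy⟩
        refine ⟨x, ?_⟩
        rw [hFV x hx]
        exact congrArg (fun w : W => (w : Y)) hxy
      · have h1 : g.symm y ∉ V := fun h => hy (by
          have := (hmem _).1 h
          rwa [g.apply_symm_apply] at this)
        exact ⟨g.symm y, by rw [hFn _ h1, g.apply_symm_apply]⟩
  have hld : ∀ x, LocDiff F x := by
    intro x
    by_cases hx : x ∈ V
    · obtain ⟨p, hp1, hp2, -, hp4⟩ := (Pool.Agent.Y170.NA.LD_val (n := 4) V ⟨x, hx⟩).exists_inverse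
      have h1 : LocDiff (fun z => ((Ψ (p z) : W) : Y)) x := by
        have h2 : Pool.Agent.Y522.LD 4 (fun w : V => ((Ψ w : W) : Y)) (p x) := by
          have h3 : Pool.Agent.Y522.LD 4 (Ψ : V → W) (p x) := Ψ.isLocalDiffeomorph _
          exact Pool.Agent.Y522.LD.comp_fun (Pool.Agent.Y170.NA.LD_val (n := 4) W (Ψ (p x))) h3
        exact Pool.Agent.Y522.LD.comp_fun (g := fun w : V => ((Ψ w : W) : Y)) (f := p) h2 hp1
      refine Pool.Agent.Y522.LD.congr h1 ?_
      filter_upwards [hp4, V.isOpen.mem_nhds hx] with z hz hzV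
      rw [hFV z hzV]
      have h4 : p z = ⟨z, hzV⟩ := Subtype.ext hz
      rw [h4]
    · have h1 : LocDiff g x := by
        by_contra h
        exact hx (hb h)
      refine Pool.Agent.Y522.LD.congr h1 ?_
      have h2 : x ∉ C := by
        rintro ⟨y, -, rfl⟩
        exact hx y.2
      filter_upwards [hC.isClosed.isOpen_compl.mem_nhds h2] with z hz
      exact hFC z hz
  have hl : IsLocalDiffeomorph (𝓡 4) (𝓡 4) ∞ F := hld
  refine ⟨hl.diffeomorphOfBijective hbij, C, hC, fun x => ?_, hFC⟩
  change (x, F x) ∈ O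
  by_cases hx : x ∈ V
  · rw [hFV x hx]
    exact hΨ ⟨x, hx⟩
  · rw [hFn x hx]
    exact hgO x

theorem approx_ext {M N : Mfd4} (g : M ≃ₜ N) (V : TopologicalSpace.Opens M)
    (W : TopologicalSpace.Opens N) (k : M.sub V ≃ₜ N.sub W)
    (hk : ∀ x, N.incl W (k x) = g (M.incl V x)) (hb : bad g ⊆ V)
    (h : Approximable (M.sub V) (N.sub W) k) : Approximable M N g := by
  intro O hO hgO
  have c1 : Continuous fun z : M.sub V × N.sub W => ((M.incl V z.1, N.incl W z.2) : M × N) :=
    (continuous_subtype_val.comp continuous_fst).prodMk (continuous_subtype_val.comp continuous_snd)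
  obtain ⟨Ψ, D, hD, hΨ, hoff⟩ := h _ (hO.preimage c1) (fun x => by
    show (M.incl V x, N.incl W (k x)) ∈ O
    rw [hk]
    exact hgO _)
  exact ext_aux M N M.hausdorff g V W k hk hb O hgO Ψ D hD hΨ hoff

theorem approx_of_tame {M N : Mfd4} (g : M ≃ₜ N) (hg : Tame M N g) : Approximable M N g := by
  induction hg with
  | @corankOne M N g hb hs hr => exact corank_aux M N M.smooth M.hausdorff N.smooth g hb hs hr
  | @coneMonotone M N g hb hc => exact cone_aux M N M.smooth M.hausdorff N.smooth g hb hc
  | inverse g _ ih => exact approx_symm g ih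
  | composition g h _ _ ih1 ih2 => exact approx_trans g h ih1 ih2
  | limit g h C h1 _ ih =>
    intro O hO hgO
    obtain ⟨hC, hG, hoff⟩ := h1 O hO hgO
    obtain ⟨Φ, D, hD, hΦ, hoff2⟩ := ih O hO hgO O hO hG
    refine ⟨Φ, C O ∪ D, hC.union hD, hΦ, fun x hx => ?_⟩
    rw [hoff2 x fun h => hx (Or.inr h), hoff x fun h => hx (Or.inl h)]
  | extension g V W k hk hb _ ih => exact approx_ext g V W k hk hb ih

theorem tame_of_locDiff {M N : Mfd4} (g : M ≃ₜ N) (h : ∀ x, LocDiff g x) : Tame M N g := by
  refine Tame.coneMonotone _ ?_ fun x => Or.inl (h x)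
  have h1 : bad g = ∅ := eq_empty_of_forall_notMem fun x hx => hx (h x)
  rw [h1]
  exact isCompact_empty

/-- `G` is a diffeomorphism of `ℝ⁴`, equal to a linear isometry outside a compact set (so it extends
to a diffeomorphism of `S⁴`) -/
def StandardAtInfinity (G : R4 → R4) : Prop :=
  ContDiff ℝ ∞ G ∧ (∃ K : R4 → R4, ContDiff ℝ ∞ K ∧ LeftInverse K G ∧ RightInverse K G) ∧
    ∃ (O : R4 ≃ₗᵢ[ℝ] R4) (R : ℝ), ∀ x, R ≤ ‖x‖ → G x = O x

/-- `S` is the boundary of a tame ball: the ball is parametrized by `H`, which is injective on a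
neighbourhood of the closed unit ball, a local diffeomorphism near the unit sphere, and restricts to a
tame homeomorphism of the open unit ball onto an open subset `V` of `ℝ⁴` -/
def BoundsTameBall (S : Set R4) : Prop :=
  ∃ (H : R4 → R4) (δ : ℝ) (V : TopologicalSpace.Opens std)
    (g : std.sub unitBall ≃ₜ std.sub V), 0 < δ ∧ InjOn H (ball 0 (1 + δ)) ∧
      (∀ x, 1 ≤ ‖x‖ → ‖x‖ < 1 + δ → LocDiff H x) ∧
      (∀ x, std.incl V (g x) = H (std.incl unitBall x)) ∧
      Tame (std.sub unitBall) (std.sub V) g ∧ H '' sphere 0 1 = S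

theorem locDiff_of_diffeo (G K : R4 → R4) (hG : ContDiff ℝ ∞ G) (hK : ContDiff ℝ ∞ K)
    (h1 : LeftInverse K G) (h2 : RightInverse K G) (x : R4) : LocDiff G x := by
  let Φ : Diffeomorph (𝓡 4) (𝓡 4) R4 R4 ∞ :=
    { toFun := G
      invFun := K
      left_inv := h1
      right_inv := h2
      contMDiff_toFun := hG.contMDiff
      contMDiff_invFun := hK.contMDiff }
  exact Φ.isLocalDiffeomorph x

theorem result (S : Set R4) :
    (∃ G : R4 → R4, StandardAtInfinity G ∧ G '' sphere 0 1 = S) ↔ BoundsTameBall S := by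
  constructor
  · rintro ⟨G, ⟨hG, ⟨K, hK, h1, h2⟩, -⟩, rfl⟩
    have hld := locDiff_of_diffeo G K hG hK h1 h2
    let U : TopologicalSpace.Opens R4 := ⟨ball (0 : R4) 1, isOpen_ball⟩
    let V : TopologicalSpace.Opens R4 := ⟨K ⁻¹' ball (0 : R4) 1,
      isOpen_ball.preimage hK.continuous⟩
    have hm : ∀ x : U, G x.1 ∈ V := fun x => by
      show K (G x.1) ∈ ball (0 : R4) 1
      rw [h1]
      exact x.2
    have hm2 : ∀ x : V, K x.1 ∈ U := fun x => x.2
    let g : U ≃ₜ V :=
      { toFun := fun x => ⟨G x.1, hm x⟩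
        invFun := fun y => ⟨K y.1, hm2 y⟩
        left_inv := fun x => Subtype.ext (h1 x.1)
        right_inv := fun y => Subtype.ext (h2 y.1)
        continuous_toFun := (hG.continuous.comp continuous_subtype_val).subtype_mk hm
        continuous_invFun := (hK.continuous.comp continuous_subtype_val).subtype_mk hm2 }
    have hg : ∀ x : U, LocDiff g x := by
      intro x
      obtain ⟨p, hp1, hp2, -, hp4⟩ :=
        (Pool.Agent.Y170.NA.LD_val (n := 4) V (g x)).exists_inverse
      have h3 : Pool.Agent.Y522.LD 4 (fun w : U => G w.1) x :=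
        Pool.Agent.Y522.LD.comp_fun (g := G) (f := fun w : U => (w : R4)) (hld x.1)
          (Pool.Agent.Y170.NA.LD_val (n := 4) U x)
      have h5 : Pool.Agent.Y522.LD 4 (fun w : U => p (G w.1)) x :=
        Pool.Agent.Y522.LD.comp_fun (g := p) (f := fun w : U => G w.1) hp1 h3
      refine Pool.Agent.Y522.LD.congr h5 ?_
      have h6 : ContinuousAt (fun w : U => G w.1) x :=
        (hG.continuous.comp continuous_subtype_val).continuousAt
      filter_upwards [h6.tendsto.eventually hp4] with w hw
      exact Subtype.ext hw.symm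
    refine ⟨G, 1, V, g, one_pos, fun x _ y _ hxy => ?_, fun x _ _ => hld x, fun x => rfl,
      tame_of_locDiff (M := std.sub unitBall) (N := std.sub V) g hg, rfl⟩
    rw [← h1 x, ← h1 y, hxy]
  · rintro ⟨H, δ, V, g, hδ, hi, hs, hg, ht, rfl⟩
    obtain ⟨Φ, C, hC, -, hoff⟩ := approx_of_tame g ht univ isOpen_univ (fun _ => mem_univ _)
    obtain ⟨G, O, R, hb, hL, h1, h2, h3⟩ := Pool.Agent.R865.SchT.sch_of_diffeo 4 H δ hδ hi hs V
      g hg g.surjective Φ C hC hoff
    obtain ⟨hG, hK⟩ := Pool.Agent.Y522.smooth_inverse hb hL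
    refine ⟨G, ⟨hG, hK, O, R, h3⟩, ?_⟩
    exact image_congr fun x hx => h1 x (by simpa using hx)

end Pool.Agent.Results.MP_6c077c_gt.UnknottedIffTame
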